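import Mathlib

/-!
# One relation between the Hoffman elements gives relations in all windows of weights

The Hoffman elements are the multiple zeta values `ζ(w)`, `w` a word in the letters `2, 3`, in all weights together.
The conjecture of the problem says that they form a basis of the space of all multiple zeta values (in particular that
this space is graded by the weight). Let `cnt a b` be the number of the words with weight in `[a, b]` and `Zle n` the
space spanned by all the multiple zeta values of weight at most `n`, so that `dim Zle n ≤ cnt 0 n` (Brown).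

Theorem.
* If there is a relation between Hoffman elements with weights in `[a, b]` then there is one with weights in
  `[a + k, b + k]`, for every `k ≠ 1`.
* If there is a relation between Hoffman elements of weights at most `p` then `dim Zle (n + p) ≤ cnt (n + 1) (n + p)`
  for all `n`: the dimension is at most the number of the words in the last `p` weights alone, at most
  `(1 - 2^{-p}) cnt 0 (n + p)`.
* Hence the conjecture holds if (and only if) for every `L` there are arbitrarily large `n` such that the Hoffman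
  elements with weights in the window `[n, n + L]` are linearly independent; and if (and only if)
  `limsup dim Zle n / cnt 0 n = 1`.

The proof uses the theorem of Brown (2012) on motivic multiple zeta values: there are an integral domain `H`, elements
`ζ^m(s)` of `H` and a ring homomorphism `per : H → ℝ` with `per ζ^m(s) = ζ(s)`, such that the weight is multiplicative
and the elements of the words in `2, 3` form a basis of `H`. This is the structure `Motivic` below. If `per` kills
`ξ ≠ 0`, it kills the multiples of `ξ`.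
-/

set_option autoImplicit false

namespace Pool.Agent.Results.MP_c2d7b4_nt.FailureInWindows

/-- The multiple zeta value of an index (the first entry belongs to the largest variable). -/
noncomputable def zeta (s : List ℕ) : ℝ :=
  ∑' m : {m : Fin s.length → ℕ // StrictAnti m ∧ ∀ i, 0 < m i},
    ∏ i, ((m.1 i : ℝ) ^ (s.get i))⁻¹

/-- All entries are positive, and the first one is at least `2`. -/
def Admissible (s : List ℕ) : Prop := (∀ a ∈ s, 1 ≤ a) ∧ ∀ a ∈ s.head?, 2 ≤ a

/-- The words in the letters `2`, `3`; their multiple zeta values are the Hoffman elements. -/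
def IsWord (w : List ℕ) : Prop := ∀ a ∈ w, a = 2 ∨ a = 3

/-- The words in the letters `2`, `3` with weight in `[a, b]`. -/
def Win (a b : ℕ) : Set (List ℕ) := {w | IsWord w ∧ a ≤ w.sum ∧ w.sum ≤ b}

/-- The number of these words. -/
noncomputable def cnt (a b : ℕ) : ℕ := (Win a b).ncard

/-- The space of all multiple zeta values. -/
noncomputable def Z : Submodule ℚ ℝ := Submodule.span ℚ (zeta '' {s | Admissible s})

/-- The space spanned by the multiple zeta values of weight at most `n`. -/
noncomputable def Zle (n : ℕ) : Submodule ℚ ℝ := Submodule.span ℚ (zeta '' {s | Admissible s ∧ s.sum ≤ n})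

/-- The conjecture of the problem: the Hoffman elements form a basis. -/
def Hoffman : Prop :=
  LinearIndepOn ℚ zeta {w | IsWord w} ∧ Submodule.span ℚ (zeta '' {w | IsWord w}) = Z

/-- The motivic multiple zeta values, with the properties found by Brown. -/
structure Motivic where
  /-- the algebra -/
  H : Type
  [ring : CommRing H]
  [dom : IsDomain H]
  [alg : Algebra ℚ H]
  /-- the motivic multiple zeta values -/
  mot : List ℕ → H
  /-- the period map -/
  per : H →ₐ[ℚ] ℝ
  per_mot : ∀ s, Admissible s → per (mot s) = zeta s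
  mul_mem : ∀ s t, Admissible s → Admissible t →
    mot s * mot t ∈ Submodule.span ℚ (mot '' {u | Admissible u ∧ u.sum = s.sum + t.sum})
  indep : LinearIndepOn ℚ mot {w | IsWord w}
  span : ∀ s, Admissible s → mot s ∈ Submodule.span ℚ (mot '' {w | IsWord w ∧ w.sum = s.sum})

attribute [instance] Motivic.ring Motivic.dom Motivic.alg

theorem IsWord.admissible {w : List ℕ} (hw : IsWord w) : Admissible w := by
  constructor
  · intro a ha
    rcases hw a ha with h | h <;> omega
  · intro a ha
    rcases hw a (List.mem_of_mem_head? ha) with h | h <;> omega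

theorem win_mono {a b c d : ℕ} (h1 : c ≤ a) (h2 : b ≤ d) : Win a b ⊆ Win c d :=
  fun _ h => ⟨h.1, h1.trans h.2.1, h.2.2.trans h2⟩

theorem nil_word : IsWord [] := by
  intro a ha
  simp at ha

theorem win_finite (a b : ℕ) : (Win a b).Finite := by
  have h : ∀ b, (Win 0 b).Finite := by
    intro b
    induction b with
    | zero =>
      apply (Set.finite_singleton ([] : List ℕ)).subset
      rintro w ⟨h1, -, h2⟩
      cases w with
      | nil => rfl
      | cons c t =>
        have := h1 c (by simp)
        simp only [List.sum_cons] at h2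
        omega
    | succ b ih =>
      apply (((Set.finite_singleton ([] : List ℕ)).union (ih.image (List.cons 2))).union
        (ih.image (List.cons 3))).subset
      rintro w ⟨h1, -, h2⟩
      cases w with
      | nil => left; left; rfl
      | cons c t =>
        have h3 := h1 c (by simp)
        simp only [List.sum_cons] at h2
        have h4 : t ∈ Win 0 b := ⟨fun x hx => h1 x (List.mem_cons_of_mem _ hx), Nat.zero_le _, by omega⟩
        rcases h3 with rfl | rfl
        · left; right; exact ⟨t, h4, rfl⟩
        · right; exact ⟨t, h4, rfl⟩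
  exact (h b).subset (win_mono (Nat.zero_le _) le_rfl)

theorem exists_word {k : ℕ} (hk : k ≠ 1) : ∃ w, IsWord w ∧ w.sum = k := by
  induction k using Nat.strong_induction_on with
  | _ k ih =>
    by_cases h0 : k = 0
    · exact ⟨[], nil_word, by simp [h0]⟩
    by_cases h3 : k = 3
    · refine ⟨[3], ?_, by simp [h3]⟩
      intro a ha
      simp only [List.mem_singleton] at ha
      right; exact ha
    · obtain ⟨w, h1, h2⟩ := ih (k - 2) (by omega) (by omega)
      refine ⟨2 :: w, ?_, by rw [List.sum_cons, h2]; omega⟩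
      intro a ha
      rcases List.mem_cons.1 ha with h | h
      · left; exact h
      · exact h1 a h

theorem cnt_split (n p : ℕ) : cnt 0 (n + p) = cnt 0 n + cnt (n + 1) (n + p) := by
  unfold cnt
  rw [← Set.ncard_union_eq _ (win_finite _ _) (win_finite _ _)]
  · congr 1
    ext w
    constructor
    · rintro ⟨h1, -, h2⟩
      by_cases h : w.sum ≤ n
      · left; exact ⟨h1, Nat.zero_le _, h⟩
      · right; exact ⟨h1, by omega, h2⟩
    · rintro (h | h)
      · exact ⟨h.1, Nat.zero_le _, by have := h.2.2; omega⟩
      · exact ⟨h.1, Nat.zero_le _, h.2.2⟩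
  · rw [Set.disjoint_left]
    rintro w ⟨-, -, h1⟩ ⟨-, h2, -⟩
    omega

theorem cnt_pos (n : ℕ) : 0 < cnt 0 n := by
  unfold cnt
  rw [Set.ncard_pos (win_finite _ _)]
  exact ⟨[], nil_word, by simp, by simp⟩

theorem cnt_step (k : ℕ) : cnt 0 (k + 1) ≤ 2 * cnt 0 k := by
  rw [cnt_split]
  have h : cnt (k + 1) (k + 1) ≤ cnt 0 k := by
    unfold cnt
    apply Set.ncard_le_ncard_of_injOn List.tail _ _ (win_finite _ _)
    · rintro w ⟨h1, h2, h3⟩
      cases w with
      | nil => simp at h2
      | cons c t =>
        have h4 := h1 c (by simp)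
        simp only [List.sum_cons] at h3
        exact ⟨fun x hx => h1 x (List.mem_cons_of_mem _ hx), Nat.zero_le _, by
          show t.sum ≤ k
          omega⟩
    · rintro w ⟨h1, h2, h3⟩ v ⟨g1, g2, g3⟩ h
      cases w with
      | nil => simp at h2
      | cons c t =>
        cases v with
        | nil => simp at g2
        | cons e u =>
          have h4 : t = u := h
          subst h4
          simp only [List.sum_cons] at h2 h3 g2 g3
          have : c = e := by omega
          rw [this]
  omega

theorem cnt_pow (p k : ℕ) : cnt 0 (k + p) ≤ 2 ^ p * cnt 0 k := by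
  induction p with
  | zero => simp
  | succ p ih =>
    have h := cnt_step (k + p)
    calc cnt 0 (k + (p + 1)) ≤ 2 * cnt 0 (k + p) := h
      _ ≤ 2 * (2 ^ p * cnt 0 k) := Nat.mul_le_mul_left _ ih
      _ = 2 ^ (p + 1) * cnt 0 k := by ring

namespace Motivic

variable (M : Motivic)

/-- The part belonging to a window of weights. -/
def part (a b : ℕ) : Submodule ℚ M.H := Submodule.span ℚ (M.mot '' Win a b)

theorem win_indep (a b : ℕ) : LinearIndepOn ℚ M.mot (Win a b) := M.indep.mono fun _ h => h.1

instance (a b : ℕ) : FiniteDimensional ℚ (M.part a b) :=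
  FiniteDimensional.span_of_finite ℚ ((win_finite a b).image _)

theorem finrank_part (a b : ℕ) : Module.finrank ℚ (M.part a b) = cnt a b := by
  have h := M.win_indep a b
  have hf : Fintype (Win a b) := (win_finite a b).fintype
  have h1 : M.part a b = Submodule.span ℚ (Set.range fun w : Win a b => M.mot w.1) := by
    unfold part
    congr 1
    ext x
    simp
  rw [h1, finrank_span_eq_card h, cnt, Set.ncard_eq_toFinset_card', Set.toFinset_card]

theorem part_mono {a b c d : ℕ} (h1 : c ≤ a) (h2 : b ≤ d) : M.part a b ≤ M.part c d :=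
  Submodule.span_mono (Set.image_mono (win_mono h1 h2))

theorem mem_part {s : List ℕ} (hs : Admissible s) : M.mot s ∈ M.part s.sum s.sum := by
  refine Submodule.span_mono (Set.image_mono ?_) (M.span s hs)
  rintro w ⟨h1, h2⟩
  exact ⟨h1, h2.ge, h2.le⟩

theorem mul_mem_part {a b c d : ℕ} {x y : M.H} (hx : x ∈ M.part a b) (hy : y ∈ M.part c d) :
    x * y ∈ M.part (a + c) (b + d) := by
  have h1 : M.part a b * M.part c d ≤ M.part (a + c) (b + d) := by
    rw [part, part, Submodule.span_mul_span, Submodule.span_le]
    rintro _ ⟨_, ⟨v, hv, rfl⟩, _, ⟨w, hw, rfl⟩, rfl⟩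
    have h2 := M.mul_mem v w hv.1.admissible hw.1.admissible
    refine (Submodule.span_le.2 ?_) h2
    rintro _ ⟨u, ⟨hu, hu2⟩, rfl⟩
    refine M.part_mono ?_ ?_ (M.mem_part hu)
    · have := hv.2.1
      have := hw.2.1
      omega
    · have := hv.2.2
      have := hw.2.2
      omega
  exact h1 (Submodule.mul_mem_mul hx hy)

/-- The period map on words. -/
theorem per_lc {l : List ℕ →₀ ℚ} {S : Set (List ℕ)} (hS : ∀ w ∈ S, IsWord w)
    (hl : l ∈ Finsupp.supported ℚ ℚ S) :
    M.per (Finsupp.linearCombination ℚ M.mot l) = Finsupp.linearCombination ℚ zeta l := by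
  rw [Finsupp.linearCombination_apply, Finsupp.linearCombination_apply, Finsupp.sum, Finsupp.sum, map_sum]
  apply Finset.sum_congr rfl
  intro w hw
  rw [map_smul, M.per_mot w (hS w (hl hw)).admissible]

/-- Independence in a window: the period map is injective there. -/
theorem indep_iff (a b : ℕ) :
    LinearIndepOn ℚ zeta (Win a b) ↔ ∀ x ∈ M.part a b, M.per x = 0 → x = 0 := by
  constructor
  · intro h x hx hx0
    rw [part, Finsupp.mem_span_image_iff_linearCombination] at hx
    obtain ⟨l, hl, rfl⟩ := hx
    rw [M.per_lc (fun w hw => hw.1) hl] at hx0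
    rw [(linearIndepOn_iff.1 h) l hl hx0, map_zero]
  · intro h
    rw [linearIndepOn_iff]
    intro l hl hl0
    have h1 := h (Finsupp.linearCombination ℚ M.mot l)
      ((Finsupp.mem_span_image_iff_linearCombination ℚ).2 ⟨l, hl, rfl⟩)
      (by rw [M.per_lc (fun w hw => hw.1) hl, hl0])
    exact (linearIndepOn_iff.1 (M.win_indep a b)) l hl h1

/-- The period map on the part of weight at most `n`. -/
noncomputable def perk (n : ℕ) : M.part 0 n →ₗ[ℚ] ℝ := M.per.toLinearMap.comp (M.part 0 n).subtype

theorem range_perk (n : ℕ) : LinearMap.range (M.perk n) = Zle n := by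
  apply le_antisymm
  · rintro _ ⟨x, rfl⟩
    have h1 : M.part 0 n ≤ (Zle n).comap M.per.toLinearMap := by
      unfold part
      rw [Submodule.span_le]
      rintro _ ⟨w, hw, rfl⟩
      exact Submodule.subset_span ⟨w, ⟨hw.1.admissible, hw.2.2⟩, (M.per_mot _ hw.1.admissible).symm⟩
    exact h1 x.2
  · unfold Zle
    rw [Submodule.span_le]
    rintro _ ⟨s, ⟨hs, hs2⟩, rfl⟩
    exact ⟨⟨M.mot s, M.part_mono (Nat.zero_le _) hs2 (M.mem_part hs)⟩, M.per_mot s hs⟩

theorem finrank_add (n : ℕ) :
    Module.finrank ℚ (Zle n) + Module.finrank ℚ (LinearMap.ker (M.perk n)) = cnt 0 n := by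
  rw [← M.range_perk, LinearMap.finrank_range_add_finrank_ker, M.finrank_part]

include M in
theorem indep_iff_dim (n : ℕ) :
    LinearIndepOn ℚ zeta (Win 0 n) ↔ Module.finrank ℚ (Zle n) = cnt 0 n := by
  have h1 := M.finrank_add n
  have h2 : LinearIndepOn ℚ zeta (Win 0 n) ↔ LinearMap.ker (M.perk n) = ⊥ := by
    rw [M.indep_iff, Submodule.eq_bot_iff]
    constructor
    · intro h x hx
      exact Subtype.ext (h x.1 x.2 hx)
    · intro h x hx hx0
      exact congrArg Subtype.val (h ⟨x, hx⟩ hx0)
  rw [h2, ← Submodule.finrank_eq_zero (R := ℚ)]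
  omega

include M in
/-- A relation of weights at most `p` kills a space of dimension `cnt 0 n` in the weights up to `n + p`. -/
theorem amplify {p : ℕ} (hp : ¬ LinearIndepOn ℚ zeta (Win 0 p)) (n : ℕ) :
    Module.finrank ℚ (Zle (n + p)) ≤ cnt (n + 1) (n + p) := by
  rw [M.indep_iff] at hp
  push Not at hp
  obtain ⟨ξ, hξ, hper, hξ0⟩ := hp
  let φ : M.part 0 n →ₗ[ℚ] LinearMap.ker (M.perk (n + p)) :=
    { toFun := fun x => ⟨⟨ξ * x.1, by
          have := M.mul_mem_part hξ x.2
          rwa [add_comm p n] at this⟩, by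
        rw [LinearMap.mem_ker]
        show M.per (ξ * x.1) = 0
        rw [map_mul, hper, zero_mul]⟩
      map_add' := fun x y => by
        apply Subtype.ext; apply Subtype.ext
        show ξ * (x.1 + y.1) = ξ * x.1 + ξ * y.1
        rw [mul_add]
      map_smul' := fun c x => by
        apply Subtype.ext; apply Subtype.ext
        show ξ * (c • x.1) = c • (ξ * x.1)
        rw [mul_smul_comm] }
  have hφ : Function.Injective φ := by
    intro x y h
    have h1 : ξ * x.1 = ξ * y.1 := congrArg (fun z => z.1.1) h
    exact Subtype.ext (mul_left_cancel₀ hξ0 h1)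
  have h1 := LinearMap.finrank_le_finrank_of_injective hφ
  rw [M.finrank_part] at h1
  have h2 := M.finrank_add (n + p)
  have h3 := cnt_split n p
  omega

include M in
/-- A relation in a window gives relations in the shifted windows. -/
theorem shift {a b k : ℕ} (hk : k ≠ 1) (h : ¬ LinearIndepOn ℚ zeta (Win a b)) :
    ¬ LinearIndepOn ℚ zeta (Win (a + k) (b + k)) := by
  rw [M.indep_iff] at h ⊢
  push Not at h ⊢
  obtain ⟨ξ, hξ, hper, hξ0⟩ := h
  obtain ⟨w, hw, hwk⟩ := exists_word hk
  have h1 : M.mot w ≠ 0 := M.indep.ne_zero hw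
  have h2 : M.mot w ∈ M.part k k := Submodule.subset_span ⟨w, ⟨hw, hwk.ge, hwk.le⟩, rfl⟩
  exact ⟨ξ * M.mot w, M.mul_mem_part hξ h2, by rw [map_mul, hper, zero_mul], mul_ne_zero hξ0 h1⟩

include M in
theorem hoffman_iff : Hoffman ↔ ∀ n, LinearIndepOn ℚ zeta (Win 0 n) := by
  constructor
  · intro h n
    exact h.1.mono fun _ hw => hw.1
  · intro h
    constructor
    · have h1 : {w | IsWord w} = ⋃ n, Win 0 n := by
        ext w
        simp only [Set.mem_ofPred_eq, Set.mem_iUnion]
        exact ⟨fun hw => ⟨w.sum, hw, Nat.zero_le _, le_rfl⟩, fun ⟨n, hn⟩ => hn.1⟩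
      rw [h1]
      refine linearIndepOn_iUnion_of_directed ?_ h
      apply directed_of_isDirected_le
      intro i j hij
      exact win_mono le_rfl hij
    · apply le_antisymm
      · apply Submodule.span_mono
        apply Set.image_mono
        intro w hw
        exact IsWord.admissible hw
      · unfold Z
        rw [Submodule.span_le]
        rintro _ ⟨s, hs, rfl⟩
        have h2 : M.mot s ∈ (Submodule.span ℚ (zeta '' {w | IsWord w})).comap M.per.toLinearMap := by
          refine (Submodule.span_le.2 ?_) (M.span s hs)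
          rintro _ ⟨w, hw, rfl⟩
          exact Submodule.subset_span ⟨w, hw.1, (M.per_mot w hw.1.admissible).symm⟩
        have h3 : M.per (M.mot s) ∈ Submodule.span ℚ (zeta '' {w | IsWord w}) := h2
        rwa [M.per_mot s hs] at h3

end Motivic

/-- **One relation between the Hoffman elements gives relations in all windows.** -/
theorem result (M : Motivic) :
    (Hoffman ↔ ∀ n, Module.finrank ℚ (Zle n) = cnt 0 n) ∧
    (∀ a b k, k ≠ 1 → ¬ LinearIndepOn ℚ zeta (Win a b) → ¬ LinearIndepOn ℚ zeta (Win (a + k) (b + k))) ∧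
    (∀ p n, ¬ LinearIndepOn ℚ zeta (Win 0 p) →
      Module.finrank ℚ (Zle (n + p)) ≤ cnt (n + 1) (n + p) ∧
      (Module.finrank ℚ (Zle (n + p)) : ℝ) ≤ (1 - 1 / 2 ^ p) * cnt 0 (n + p)) ∧
    [Hoffman,
      ∀ L N, ∃ n, N ≤ n ∧ LinearIndepOn ℚ zeta (Win n (n + L)),
      ∀ L, ∃ n, cnt (n + 1) (n + L) < Module.finrank ℚ (Zle (n + L)),
      ∀ ε : ℝ, 0 < ε → ∀ N, ∃ n, N ≤ n ∧ (1 - ε) * cnt 0 n ≤ (Module.finrank ℚ (Zle n) : ℝ)].TFAE := by
  have key : ∀ p n, ¬ LinearIndepOn ℚ zeta (Win 0 p) →
      (Module.finrank ℚ (Zle (n + p)) : ℝ) ≤ (1 - 1 / 2 ^ p) * cnt 0 (n + p) := by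
    intro p n hp
    have h1 := M.amplify hp n
    have h2 := cnt_split n p
    have h3 := cnt_pow p n
    have h4 : (Module.finrank ℚ (Zle (n + p)) : ℝ) + cnt 0 n ≤ cnt 0 (n + p) := by
      have : Module.finrank ℚ (Zle (n + p)) + cnt 0 n ≤ cnt 0 (n + p) := by omega
      exact_mod_cast this
    have h5 : (cnt 0 (n + p) : ℝ) ≤ 2 ^ p * cnt 0 n := by exact_mod_cast h3
    have h6 : 1 / 2 ^ p * (cnt 0 (n + p) : ℝ) ≤ cnt 0 n := by
      rw [one_div, inv_mul_le_iff₀ (by positivity)]
      exact h5
    linarith
  have hall : Hoffman ↔ ∀ n, Module.finrank ℚ (Zle n) = cnt 0 n := by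
    rw [M.hoffman_iff]
    exact forall_congr' fun n => M.indep_iff_dim n
  refine ⟨hall, fun a b k hk h => M.shift hk h, fun p n hp => ⟨M.amplify hp n, key p n hp⟩, ?_⟩
  have hno : ¬ Hoffman → ∃ p, ¬ LinearIndepOn ℚ zeta (Win 0 p) := by
    intro h
    rw [M.hoffman_iff] at h
    push Not at h
    exact h
  tfae_have 1 → 2 := by
    intro h L N
    exact ⟨N, le_rfl, h.1.mono fun _ hw => hw.1⟩
  tfae_have 2 → 1 := by
    intro h
    by_contra hc
    obtain ⟨p, hp⟩ := hno hc
    obtain ⟨n, hn, h1⟩ := h p 2
    have h2 := M.shift (k := n) (by omega) hp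
    rw [zero_add, add_comm p n] at h2
    exact h2 h1
  tfae_have 1 → 3 := by
    intro h L
    refine ⟨0, ?_⟩
    rw [hall.1 h, cnt_split]
    have := cnt_pos 0
    omega
  tfae_have 3 → 1 := by
    intro h
    by_contra hc
    obtain ⟨p, hp⟩ := hno hc
    obtain ⟨n, hn⟩ := h p
    have := M.amplify hp n
    omega
  tfae_have 1 → 4 := by
    intro h ε hε N
    refine ⟨N, le_rfl, ?_⟩
    rw [hall.1 h]
    have : (0 : ℝ) ≤ cnt 0 N := Nat.cast_nonneg _
    nlinarith
  tfae_have 4 → 1 := by
    intro h
    by_contra hc
    obtain ⟨p, hp⟩ := hno hc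
    obtain ⟨n, hn, h1⟩ := h (1 / 2 ^ (p + 1)) (by positivity) p
    have h2 := key p (n - p) hp
    rw [Nat.sub_add_cancel hn] at h2
    have h3 : (0 : ℝ) < cnt 0 n := by exact_mod_cast cnt_pos n
    have h4 : (1 : ℝ) / 2 ^ (p + 1) < 1 / 2 ^ p := by
      apply one_div_lt_one_div_of_lt (by positivity)
      exact pow_lt_pow_right₀ (by norm_num) (by omega)
    nlinarith
  tfae_finish

end Pool.Agent.Results.MP_c2d7b4_nt.FailureInWindows
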