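import Mathlib
import Pool.Agent.X90.DE.Twos
import Pool.Agent.X90.DD.Small

/-!
# MP_c2d7b4_nt: Hoffman's conjecture and the values with large arguments

Patterns are indices whose entries are fixed numbers or linear forms `b + u_1 s_1 + ⋯ + u_k s_k` in variables, for example
`()`, `(3)`, `(s_1, 3)`, `(3, s_1, 2, s_1 + s_2)`, `(2, 2, s_2 + 4)`. The fixed part of a pattern consists of the fixed
entries in front of the first entry that depends on the variables.

Let `S` be a set of indices which contains all initial segments of its elements. We say that the values with fixed part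
in `S` are almost independent if for all different patterns `w_1, …, w_r` (of any weights) with fixed parts in `S`, large
`N` and all but `K N ^ (k - 1)` of the tuples `s ∈ [N, κ N] ^ k` there is no relation `∑ c_i ζ(w_i(s)) = 0` with integers
`c_i`, not all zero, `|c_i| ≤ C ^ N`. Here `C` is arbitrary and `K` does not depend on `C`.

Theorem. The values `ζ(q)`, `q` in `S`, are linearly independent over `ℚ` if and only if the values with fixed part in
`S` are almost independent. In particular the Hoffman elements are linearly independent (this is Q1, by Brown's theorem)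
if and only if the values with fixed part in `{2, 3}^*` are almost independent. Without hypothesis: this holds for the
fixed parts `(2, …, 2)` (of any length) and for the fixed parts `(), (2), (3)`. So for almost all tuples there is no
relation of height `C ^ N` between given different values like
`1, ζ(2), ζ(2, 2), ζ(s), ζ(2, s), ζ(2, 2, s, 3), ζ(2, s, t), ζ(s + t, 3), …`, or like
`1, ζ(2), ζ(3), ζ(s), ζ(2, s), ζ(3, s), ζ(3, s, t, 2), …`.

Proof (`Pool/Agent/X90/DC`, `DD`, `DE`): the values with a fixed part are integer combinations of products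
`ζ(p) ζ(v(s))`, where `p` is an initial segment of the fixed part and `v` a pattern without fixed part; the numbers `ζ(p)`
are eliminated one by one with the stuffle product at several tuples in general position; the values of different words
of the quasi-shuffle algebra are separated by quasi-symmetric power sums. Conversely a relation between the `ζ(q)` is a
relation between constant patterns. `ζ(2, …, 2)` is a rational multiple of a power of `π`, and `1, ζ(2), ζ(3)` are
linearly independent by the starting library.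
-/

set_option autoImplicit false

namespace Pool.Agent.Results.MP_c2d7b4_nt.HoffmanAlmostAll

/-- `trunc [s_1, ..., s_r] m` is the sum of `∏ k_i ^ (-s_i)` over `m > k_1 > ... > k_r ≥ 1` -/
noncomputable def trunc : List ℕ → ℕ → ℝ
  | [], _ => 1
  | s :: l, m => ∑ j ∈ Finset.Ico 1 m, trunc l j / (j : ℝ) ^ s

/-- the multiple zeta value `ζ(s_1, ..., s_r)`, `s_1` belongs to the largest variable; `ζ() = 1` -/
noncomputable def mzv : List ℕ → ℝ
  | [] => 1
  | s :: l => ∑' k : ℕ, trunc l (k + 1) / ((k + 1 : ℕ) : ℝ) ^ s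

/-- indices: the empty index and `(s_1, ..., s_r)` with `s_1 ≥ 2` and all `s_i ≥ 1` -/
def IsIndex : List ℕ → Prop
  | [] => True
  | s :: l => 2 ≤ s ∧ ∀ t ∈ l, 1 ≤ t

/-- a pattern in the variables `s_1, …, s_k`: a list of letters `(b, u)`, different from `(0, 0)`,
the first letter is also different from `(1, 0)` -/
def Pattern {k : ℕ} (w : List (ℕ × (Fin k → ℕ))) : Prop :=
  (∀ u ∈ w.head?, u.2 ≠ 0 ∨ 2 ≤ u.1) ∧ ∀ u ∈ w, u.2 ≠ 0 ∨ 1 ≤ u.1

/-- the index of a pattern: the letter `(b, u)` becomes `b + ∑ u_j s_j` -/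
def index {k : ℕ} (s : Fin k → ℕ) (w : List (ℕ × (Fin k → ℕ))) : List ℕ :=
  w.map fun u => u.1 + ∑ j, u.2 j * s j

/-- the list of the numbers `b` of the letters `(b, 0)` in front of the first letter `(b, u)` with
`u ≠ 0` -/
def fixedPart {k : ℕ} : List (ℕ × (Fin k → ℕ)) → List ℕ
  | [] => []
  | u :: w => open Classical in if u.2 = 0 then u.1 :: fixedPart w else []

/-- for all different patterns with fixed parts in `S` and all `κ` there is `K` such that for all `C`
and all sufficiently large `N` at most `K N ^ (k - 1)` of the tuples `s ∈ [N, κ N] ^ k` have a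
nontrivial integer relation with coefficients of absolute value at most `C ^ N` -/
def AlmostIndependent (S : Set (List ℕ)) : Prop :=
  ∀ (k r κ : ℕ) (w : Fin r → List (ℕ × (Fin k → ℕ))), Function.Injective w →
    (∀ i, Pattern (w i)) → (∀ i, fixedPart (w i) ∈ S) →
    ∃ K : ℕ, ∀ C : ℝ, ∃ N0 : ℕ, ∀ N : ℕ, N0 ≤ N →
      {s : Fin k → ℕ | (∀ j, N ≤ s j ∧ s j ≤ κ * N) ∧ ∃ c : Fin r → ℤ, c ≠ 0 ∧
        (∀ i, |(c i : ℝ)| ≤ C ^ N) ∧ ∑ i, (c i : ℝ) * mzv (index s (w i)) = 0}.ncard ≤
        K * N ^ (k - 1)

open Finset Pool.Agent.X90.DC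
open Pool.Agent.X90.DB (Ad ix ex ex_ne ex_nil)

theorem trunc_eq : ∀ l m, trunc l m = Pool.Agent.Y760.ZG.hr l m := by
  intro l
  induction l with
  | nil => intro m; rw [trunc, Pool.Agent.Y760.ZG.hr]
  | cons s l ih =>
    intro m
    rw [trunc, Pool.Agent.Y760.ZG.hr]
    exact Finset.sum_congr rfl fun j _ => by rw [ih]

theorem mzv_eq : ∀ l, mzv l = Pool.Agent.Y760.ZG.mz l := by
  intro l
  cases l with
  | nil => rw [mzv, Pool.Agent.Y760.ZG.mz]
  | cons s l =>
    rw [mzv, Pool.Agent.Y760.ZG.mz]
    exact tsum_congr fun k => by rw [trunc_eq]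

theorem idx_iff : ∀ u, IsIndex u ↔ (u = [] ∨ Ad u) := by
  intro u
  cases u with
  | nil => exact ⟨fun _ => Or.inl rfl, fun _ => trivial⟩
  | cons a l => exact ⟨fun h => Or.inr h, fun h => h.resolve_left (List.cons_ne_nil _ _)⟩

theorem fixedPart_eq {k : ℕ} : ∀ w : List (ℕ × (Fin k → ℕ)), fpx w = fixedPart w := by
  intro w
  induction w with
  | nil => rfl
  | cons u w ih =>
    rw [fixedPart, fpx, ih]

theorem almost_of_indep {S : Set (List ℕ)} (hS : ∀ q ∈ S, ∀ p, p <+: q → p ∈ S)
    (hli : LinearIndependent ℚ fun q : S => mzv q.1) : AlmostIndependent S := by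
  classical
  intro k r κ w hinj hw hW
  obtain ⟨K, hK⟩ := Pool.Agent.X90.DD.distA k r w (fun i => hw i) hinj (fun T hT a ha => by
    have hTS : ∀ q ∈ T, q ∈ S := by
      intro q hq
      obtain ⟨-, i, hi⟩ := hT q hq
      refine hS _ (hW i) q ?_
      rw [← fixedPart_eq]
      exact hi
    have h1 := linearIndependent_iff'.1 hli (T.subtype (· ∈ S)) (fun q => (a q.1 : ℚ)) (by
      have h2 := sum_subtype_of_mem (fun q : List ℕ => ((a q : ℚ)) • mzv q) hTS
      rw [h2, ← ha]
      refine sum_congr rfl fun q _ => ?_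
      rw [Rat.smul_def, mzv_eq, Rat.cast_intCast])
    intro q hq
    have h2 := h1 ⟨q, hTS q hq⟩ (mem_subtype.2 hq)
    exact_mod_cast h2) κ
  refine ⟨K, fun C => ?_⟩
  obtain ⟨N0, hN0⟩ := hK C
  refine ⟨N0, fun N hN => ?_⟩
  have hfin : {s : Fin k → ℕ | (∀ j, N ≤ s j ∧ s j ≤ κ * N) ∧ ∃ c : Fin r → ℤ, c ≠ 0 ∧
      (∀ i, |(c i : ℝ)| ≤ C ^ N) ∧ ∑ i, (c i : ℝ) * mzv (index s (w i)) = 0}.Finite := by
    refine (Fintype.piFinset fun _ : Fin k => Finset.Icc N (κ * N)).finite_toSet.subset ?_
    rintro s ⟨hs, -⟩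
    rw [Finset.mem_coe, Fintype.mem_piFinset]
    exact fun j => Finset.mem_Icc.2 (hs j)
  rw [Set.ncard_eq_toFinset_card _ hfin]
  refine hN0 N hN hfin.toFinset fun s hs => ?_
  rw [Set.Finite.mem_toFinset] at hs
  obtain ⟨hs1, c, hc0, hc1, hc2⟩ := hs
  refine ⟨hs1, c, hc0, hc1, ?_⟩
  simp only [mzv_eq] at hc2
  exact hc2

theorem indep_of_almost {S : Set (List ℕ)} (hI : ∀ q ∈ S, IsIndex q) (hA : AlmostIndependent S) :
    LinearIndependent ℚ fun q : S => mzv q.1 := by
  classical
  rw [linearIndependent_iff']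
  intro T g hg q0 hq0
  by_contra hne
  obtain ⟨Δ, hΔ, a, ha⟩ := Pool.Agent.X90.DA.common_den (fun p : T => g p.1)
  set e := T.equivFin with he
  set w : Fin T.card → List (ℕ × (Fin 1 → ℕ)) := fun i => fp (e.symm i).1.1 with hw
  have hfix : ∀ p : List ℕ, fixedPart (fp p : List (ℕ × (Fin 1 → ℕ))) = p := by
    intro p
    induction p with
    | nil => rfl
    | cons b p ih =>
      show fixedPart ((b, 0) :: fp p) = _
      rw [fixedPart, if_pos rfl, ih]
  have hindex : ∀ (s : Fin 1 → ℕ) i, index s (w i) = (e.symm i).1.1 := fun s i => ix_fp s _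
  obtain ⟨K, hK⟩ := hA 1 T.card 2 w (fun i i' h => by
      have h1 := congrArg fixedPart h
      rw [hw] at h1
      simp only [hfix] at h1
      exact e.symm.injective (Subtype.ext (Subtype.ext h1))) (fun i => by
    have h2 := hI _ (e.symm i).1.2
    constructor
    · intro u hu
      rw [hw] at hu
      rcases hp : (e.symm i).1.1 with _ | ⟨b, q⟩
      · simp only [hp] at hu
        simp [fp] at hu
      · simp only [hp] at hu
        rw [hp] at h2
        have hu' : u = (b, 0) := by
          simp only [fp, List.map_cons, List.head?_cons, Option.mem_some_iff] at hu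
          exact hu.symm
        rw [hu']
        exact Or.inr h2.1
    · intro u hu
      have hu' : u ∈ (fp (e.symm i).1.1 : List (ℕ × (Fin 1 → ℕ))) := hu
      rw [fp, List.mem_map] at hu'
      obtain ⟨b, hb, rfl⟩ := hu'
      right
      rcases hp : (e.symm i).1.1 with _ | ⟨b', q⟩
      · rw [hp] at hb
        exact absurd hb List.not_mem_nil
      · rw [hp] at hb h2
        rcases List.mem_cons.1 hb with rfl | hb
        · exact le_trans (by norm_num) h2.1
        · exact h2.2 b hb) (fun i => by
      rw [hw, hfix]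
      exact (e.symm i).1.2)
  set H : ℝ := 1 + ∑ i : Fin T.card, |(a (e.symm i) : ℝ)| with hH
  have hH1 : 1 ≤ H := by
    rw [hH]
    exact le_add_of_nonneg_right (by positivity)
  obtain ⟨N0, hN0⟩ := hK H
  obtain ⟨N, hN, hN1, hlt⟩ := bx_large (k := 1) (κ := 2) le_rfl le_rfl K N0
  have hval : ∀ (i : Fin T.card), ((a (e.symm i) : ℤ) : ℝ) =
      (Δ : ℝ) * ((g (e.symm i).1 : ℚ) : ℝ) := by
    intro i
    have h2 := congrArg (fun y : ℚ => (y : ℝ)) (ha (e.symm i))
    push_cast at h2
    exact h2.symm
  have hrel : ∀ s : Fin 1 → ℕ, ∑ i, ((a (e.symm i) : ℤ) : ℝ) * mzv (index s (w i)) = 0 := by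
    intro s
    have h2 : ∀ i, ((a (e.symm i) : ℤ) : ℝ) * mzv (index s (w i)) =
        (Δ : ℝ) * (g (e.symm i).1 • mzv (e.symm i).1.1) := by
      intro i
      rw [hindex, hval i, Rat.smul_def]
      ring
    rw [sum_congr rfl fun i _ => h2 i, ← mul_sum,
      e.symm.sum_comp fun p : T => g p.1 • mzv p.1.1, sum_coe_sort T fun p => g p • mzv p.1, hg,
      mul_zero]
  have h2 := hN0 N hN
  have h3 : {s : Fin 1 → ℕ | (∀ j, N ≤ s j ∧ s j ≤ 2 * N) ∧ ∃ c : Fin T.card → ℤ, c ≠ 0 ∧
      (∀ i, |(c i : ℝ)| ≤ H ^ N) ∧ ∑ i, (c i : ℝ) * mzv (index s (w i)) = 0} =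
      (bx 1 2 N : Set (Fin 1 → ℕ)) := by
    ext s
    rw [Finset.mem_coe, mem_bx]
    refine ⟨fun h => h.1, fun h => ⟨h, fun i => a (e.symm i), ?_, fun i => ?_, hrel s⟩⟩
    · intro h0
      have h4 := congrFun h0 (e ⟨q0, hq0⟩)
      simp only [Equiv.symm_apply_apply, Pi.zero_apply] at h4
      have h5 := ha ⟨q0, hq0⟩
      rw [h4, Int.cast_zero] at h5
      have hΔ' : (Δ : ℚ) ≠ 0 := by exact_mod_cast hΔ
      exact hne ((mul_eq_zero.1 h5).resolve_left hΔ')
    · have h4 := single_le_sum (f := fun i : Fin T.card => |(a (e.symm i) : ℝ)|)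
        (fun _ _ => abs_nonneg _) (mem_univ i)
      refine le_trans ?_ (le_self_pow₀ hH1 (by omega : N ≠ 0))
      rw [hH]
      linarith
  rw [h3, Set.ncard_coe_finset] at h2
  omega

theorem twos : AlmostIndependent {q | ∀ t ∈ q, t = 2} := by
  refine almost_of_indep (fun q hq p hp t ht => hq t (hp.subset ht)) ?_
  have h1 : mzv = Pool.Agent.Y760.ZG.mz := funext mzv_eq
  rw [h1]
  exact Pool.Agent.X90.DE.twos_indep

theorem three : AlmostIndependent {[], [2], [3]} := by
  classical
  refine almost_of_indep (fun q hq p hp => ?_) ?_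
  · rcases hq with rfl | rfl | rfl
    · rw [List.prefix_nil.1 hp]
      exact Or.inl rfl
    · rcases List.prefix_cons_iff.1 hp with rfl | ⟨t, rfl, ht⟩
      · exact Or.inl rfl
      · rw [List.prefix_nil.1 ht]
        exact Or.inr (Or.inl rfl)
    · rcases List.prefix_cons_iff.1 hp with rfl | ⟨t, rfl, ht⟩
      · exact Or.inl rfl
      · rw [List.prefix_nil.1 ht]
        exact Or.inr (Or.inr rfl)
  · have h0 := Pool.Agent.LZ.Z3_linind
    set φ : ({[], [2], [3]} : Set (List ℕ)) → Fin 3 := fun q =>
      if q.1 = [] then 0 else if q.1 = [2] then 1 else 2 with hφ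
    have hinj : Function.Injective φ := by
      rintro ⟨q, hq⟩ ⟨q', hq'⟩ h
      ext1
      simp only [hφ] at h ⊢
      rcases hq with rfl | rfl | rfl <;> rcases hq' with rfl | rfl | rfl <;> simp_all
    have h1 := h0.comp φ hinj
    have h2 : (fun q : ({[], [2], [3]} : Set (List ℕ)) => mzv q.1) =
        ![(1 : ℝ), Pool.Agent.H337R2.zr 2, Pool.Agent.H337R2.zr 3] ∘ φ := by
      funext ⟨q, hq⟩
      simp only [hφ, Function.comp]
      rcases hq with rfl | rfl | rfl
      · rw [if_pos rfl, mzv]
        rfl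
      · rw [if_neg (by simp), if_pos rfl, mzv_eq, Pool.Agent.X90.DD.mz_zr]
        rfl
      · rw [if_neg (by simp), if_neg (by simp), mzv_eq, Pool.Agent.X90.DD.mz_zr]
        rfl
    rw [h2]
    exact h1

/-- the words in the letters `2`, `3` -/
def Hoffman : Set (List ℕ) := {q | ∀ t ∈ q, t = 2 ∨ t = 3}

/-- **Hoffman's conjecture and almost independence.** For every set `S` of indices which contains the
initial segments of its elements, the values `ζ(q)`, `q ∈ S`, are linearly independent if and only
if the values with fixed part in `S` are almost independent. In particular this holds for the set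
of the words in the letters `2` and `3`. The values with fixed part `(2, …, 2)` and the values with
fixed part `()`, `(2)` or `(3)` are almost independent. -/
theorem result :
    (∀ S : Set (List ℕ), (∀ q ∈ S, IsIndex q) → (∀ q ∈ S, ∀ p, p <+: q → p ∈ S) →
      ((LinearIndependent ℚ fun q : S => mzv q.1) ↔ AlmostIndependent S)) ∧
    ((LinearIndependent ℚ fun q : Hoffman => mzv q.1) ↔ AlmostIndependent Hoffman) ∧
    AlmostIndependent {q | ∀ t ∈ q, t = 2} ∧ AlmostIndependent {[], [2], [3]} := by
  have h1 : ∀ S : Set (List ℕ), (∀ q ∈ S, IsIndex q) → (∀ q ∈ S, ∀ p, p <+: q → p ∈ S) →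
      ((LinearIndependent ℚ fun q : S => mzv q.1) ↔ AlmostIndependent S) :=
    fun S hI hS => ⟨almost_of_indep hS, indep_of_almost hI⟩
  refine ⟨h1, h1 _ (fun q hq => ?_) fun q hq p hp t ht => hq t (hp.subset ht), twos, three⟩
  cases q with
  | nil => trivial
  | cons a l =>
    refine ⟨?_, fun t ht => ?_⟩
    · rcases hq a List.mem_cons_self with rfl | rfl <;> norm_num
    · rcases hq t (List.mem_cons_of_mem _ ht) with rfl | rfl <;> norm_num

end Pool.Agent.Results.MP_c2d7b4_nt.HoffmanAlmostAll
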