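import Pool.Agent.Results.MP_c2d7b4_nt.HoffmanAlmostAll
import Pool.Agent.X174.WinInd

/-!
# Hoffman's basis conjecture and linear independence at ALL indices in cubes around thin sequences of points

Patterns are indices whose entries are fixed numbers or linear forms `b + u_1 s_1 + ⋯ + u_k s_k` in variables; the fixed part
consists of the entries in front of the first entry that depends on the variables. For a set `S` of indices, `InCubes S` is
the statement: for every sequence `v ≥ 1` of exponent of convergence at most `τ` (for `v_i = (i + 1) ^ a` this is `1 / a`, for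
`v_i = b ^ i` it is `0`) and every `ρ < 1` there is ONE set `E ⊂ ℝ^k` of Hausdorff dimension at most
`(k - 1 + τ) / (1 - ρ)` such that for each `x` outside `E` with positive coordinates, all different patterns `w_1, …, w_r`
with fixed parts in `S` and all `C`, for all but finitely many `i`: for ALL natural numbers `s_1, …, s_k` with
`|s_j - x_j v_i| ≤ v_i ^ ρ` the values `ζ(w_l(s))` have no nontrivial integer relation with coefficients of absolute value at
most `C ^ v_i`.

For every set `S` of indices which contains the initial segments of its elements the values `ζ(q)`, `q ∈ S`, are linearly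
independent if and only if `InCubes S` holds; in particular for Hoffman's set. `InCubes S` holds for the set of all
`(2, …, 2)` and for `S = {(), (2), (3)}`.
-/

set_option autoImplicit false

namespace Pool.Agent.Results.MP_c2d7b4_nt.IndicesInCubes

open HoffmanAlmostAll (mzv IsIndex Pattern index fixedPart AlmostIndependent Hoffman)

/-- the exponent of convergence of the sequence `v` is at most `τ` -/
def ExpLe (v : ℕ → ℝ) (τ : ℝ) : Prop := ∀ t : ℝ, τ < t → Summable (fun n : ℕ => (v n) ^ (-t))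

/-- For all `k ≥ 1`, all sequences `v ≥ 1` of exponent of convergence at most `τ` and all `ρ < 1` there is a set `E ⊂ ℝ^k`
of Hausdorff dimension at most `(k - 1 + τ) / (1 - ρ)` such that for all `x` outside `E` with positive coordinates, all
different patterns with fixed parts in `S` and all `C`, for all but finitely many `i`, for no tuple `s` with
`|s_j - x_j v_i| ≤ v_i ^ ρ` the values have a nontrivial integer relation with coefficients of absolute value at most
`C ^ v_i`. -/
def InCubes (S : Set (List ℕ)) : Prop :=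
  ∀ (k : ℕ), 1 ≤ k → ∀ (v : ℕ → ℝ) (τ ρ : ℝ), (∀ i, 1 ≤ v i) → 0 ≤ τ → ExpLe v τ → ρ < 1 →
    ∃ E : Set (Fin k → ℝ), dimH E ≤ ENNReal.ofReal (((k : ℝ) - 1 + τ) / (1 - ρ)) ∧
      ∀ x : Fin k → ℝ, x ∉ E → (∀ j, 0 < x j) →
        ∀ (r : ℕ) (w : Fin r → List (ℕ × (Fin k → ℕ))), Function.Injective w → (∀ l, Pattern (w l)) →
          (∀ l, fixedPart (w l) ∈ S) → ∀ C : ℝ, 1 ≤ C → ∃ i₀ : ℕ, ∀ i : ℕ, i₀ ≤ i →
            ∀ s : Fin k → ℕ, (∀ j, |(s j : ℝ) - x j * v i| ≤ (v i) ^ ρ) →
              ∀ c : Fin r → ℤ, (∀ l, |(c l : ℝ)| ≤ C ^ (v i)) → ∑ l, (c l : ℝ) * mzv (index s (w l)) = 0 → c = 0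

theorem cubes_of_almost {S : Set (List ℕ)} (hA : AlmostIndependent S) : InCubes S := by
  intro k hk v τ ρ hv hτ hE hρ
  have key : ∀ z : (r : ℕ) × (Fin r → List (ℕ × (Fin k → ℕ))), ∃ E : Set (Fin k → ℝ),
      dimH E ≤ ENNReal.ofReal (((k : ℝ) - 1 + τ) / (1 - ρ)) ∧
      (Function.Injective z.2 → (∀ l, Pattern (z.2 l)) → (∀ l, fixedPart (z.2 l) ∈ S) →
        ∀ x : Fin k → ℝ, x ∉ E → (∀ j, 0 < x j) → ∀ C : ℝ, 1 ≤ C → ∃ i₀ : ℕ, ∀ i : ℕ, i₀ ≤ i → ∀ s : Fin k → ℕ,
          (∀ j, |(s j : ℝ) - x j * v i| ≤ (v i) ^ ρ) → ¬ ∃ c : Fin z.1 → ℤ, c ≠ 0 ∧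
            (∀ l, |(c l : ℝ)| ≤ C ^ (v i)) ∧ ∑ l, (c l : ℝ) * mzv (index s (z.2 l)) = 0) := by
    rintro ⟨r, w⟩
    dsimp only
    by_cases hw : Function.Injective w ∧ (∀ l, Pattern (w l)) ∧ ∀ l, fixedPart (w l) ∈ S
    · obtain ⟨E, h1, h2⟩ := Pool.Agent.X174.winInd hk
        (fun H s => ∃ c : Fin r → ℤ, c ≠ 0 ∧ (∀ l, |(c l : ℝ)| ≤ H) ∧ ∑ l, (c l : ℝ) * mzv (index s (w l)) = 0)
        (fun H H' s hH ⟨c, hc0, hc, h3⟩ => ⟨c, hc0, fun l => (hc l).trans hH, h3⟩)
        (fun κ => hA k r κ w hw.1 hw.2.1 hw.2.2) hv hτ hE hρ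
      exact ⟨E, h1, fun _ _ _ => h2⟩
    · exact ⟨∅, by simp, fun h h' h'' => absurd ⟨h, h', h''⟩ hw⟩
  choose Es h1 h2 using key
  refine ⟨⋃ z, Es z, ?_, fun x hx hx0 r w hinj hw hW C hC => ?_⟩
  · rw [dimH_iUnion]
    exact iSup_le h1
  · obtain ⟨i₀, hi₀⟩ := h2 ⟨r, w⟩ hinj hw hW x (fun hm => hx (Set.mem_iUnion.2 ⟨_, hm⟩)) hx0 C hC
    refine ⟨i₀, fun i hi s hs c hc hsum => ?_⟩
    by_contra hne
    exact hi₀ i hi s hs ⟨c, hne, hc, hsum⟩

open Finset Pool.Agent.X90.DC in
/-- the converse: constant patterns -/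
theorem indep_of_cubes {S : Set (List ℕ)} (hI : ∀ q ∈ S, IsIndex q) (hA : InCubes S) :
    LinearIndependent ℚ fun q : S => mzv q.1 := by
  classical
  rw [linearIndependent_iff']
  intro T g hg q0 hq0
  by_contra hne
  obtain ⟨Δ, hΔ, a, ha⟩ := Pool.Agent.X90.DA.common_den (fun p : T => g p.1)
  set e := T.equivFin with he
  set w : Fin T.card → List (ℕ × (Fin 1 → ℕ)) := fun i => fp (e.symm i).1.1 with hw
  have hfix : ∀ p : List ℕ, fixedPart (fp p : List (ℕ × (Fin 1 → ℕ))) = p := by
    intro p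
    induction p with
    | nil => rfl
    | cons b p ih =>
      show fixedPart ((b, 0) :: fp p) = _
      rw [fixedPart, if_pos rfl, ih]
  have hindex : ∀ (s : Fin 1 → ℕ) i, index s (w i) = (e.symm i).1.1 := fun s i => ix_fp s _
  set H : ℝ := 1 + ∑ i : Fin T.card, |(a (e.symm i) : ℝ)| with hH
  have hH1 : 1 ≤ H := by
    rw [hH]
    exact le_add_of_nonneg_right (by positivity)
  obtain ⟨E, hE1, hE2⟩ := hA 1 le_rfl (fun n => (2 : ℝ) ^ n) 0 0 (fun n => one_le_pow₀ (by norm_num)) le_rfl
    (Pool.Agent.Y854.GM.expLe_geom 2 (by norm_num)) one_pos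
  obtain ⟨N, s, hno⟩ := Pool.Agent.X174.pick (P := fun V s => ∀ c : Fin T.card → ℤ, (∀ l, |(c l : ℝ)| ≤ H ^ V) →
      ∑ l, (c l : ℝ) * mzv (index s (w l)) = 0 → c = 0) hE1 fun x hx hx0 =>
    hE2 x hx hx0 T.card w (fun i i' h => by
      have h1 := congrArg fixedPart h
      rw [hw] at h1
      simp only [hfix] at h1
      exact e.symm.injective (Subtype.ext (Subtype.ext h1))) (fun i => by
    have h2 := hI _ (e.symm i).1.2
    constructor
    · intro u hu
      rw [hw] at hu
      rcases hp : (e.symm i).1.1 with _ | ⟨b, q⟩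
      · simp only [hp] at hu
        simp [fp] at hu
      · simp only [hp] at hu
        rw [hp] at h2
        have hu' : u = (b, 0) := by
          simp only [fp, List.map_cons, List.head?_cons, Option.mem_some_iff] at hu
          exact hu.symm
        rw [hu']
        exact Or.inr h2.1
    · intro u hu
      have hu' : u ∈ (fp (e.symm i).1.1 : List (ℕ × (Fin 1 → ℕ))) := hu
      rw [fp, List.mem_map] at hu'
      obtain ⟨b, hb, rfl⟩ := hu'
      right
      rcases hp : (e.symm i).1.1 with _ | ⟨b', q⟩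
      · rw [hp] at hb
        exact absurd hb List.not_mem_nil
      · rw [hp] at hb h2
        rcases List.mem_cons.1 hb with rfl | hb
        · exact le_trans (by norm_num) h2.1
        · exact h2.2 b hb) (fun i => by
      rw [hw, hfix]
      exact (e.symm i).1.2) H hH1
  have hV1 : (1 : ℝ) ≤ (2 : ℝ) ^ N := one_le_pow₀ (by norm_num)
  have hval : ∀ (i : Fin T.card), ((a (e.symm i) : ℤ) : ℝ) =
      (Δ : ℝ) * ((g (e.symm i).1 : ℚ) : ℝ) := by
    intro i
    have h2 := congrArg (fun y : ℚ => (y : ℝ)) (ha (e.symm i))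
    push_cast at h2
    exact h2.symm
  have hrel : ∑ i, ((a (e.symm i) : ℤ) : ℝ) * mzv (index s (w i)) = 0 := by
    have h2 : ∀ i, ((a (e.symm i) : ℤ) : ℝ) * mzv (index s (w i)) =
        (Δ : ℝ) * (g (e.symm i).1 • mzv (e.symm i).1.1) := by
      intro i
      rw [hindex, hval i, Rat.smul_def]
      ring
    rw [sum_congr rfl fun i _ => h2 i, ← mul_sum,
      e.symm.sum_comp fun p : T => g p.1 • mzv p.1.1, sum_coe_sort T fun p => g p • mzv p.1, hg,
      mul_zero]
  have h0 := hno (fun i => a (e.symm i)) (fun i => by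
    have h4 := single_le_sum (f := fun i : Fin T.card => |(a (e.symm i) : ℝ)|)
        (fun _ _ => abs_nonneg _) (mem_univ i)
    have h3 : H ≤ H ^ ((2 : ℝ) ^ N) := by
      calc H = H ^ (1 : ℝ) := (Real.rpow_one H).symm
        _ ≤ H ^ ((2 : ℝ) ^ N) := Real.rpow_le_rpow_of_exponent_le hH1 hV1
    refine le_trans ?_ h3
    rw [hH]
    linarith) hrel
  have h4 := congrFun h0 (e ⟨q0, hq0⟩)
  simp only [Equiv.symm_apply_apply, Pi.zero_apply] at h4
  have h5 := ha ⟨q0, hq0⟩
  rw [h4, Int.cast_zero] at h5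
  have hΔ' : (Δ : ℚ) ≠ 0 := by exact_mod_cast hΔ
  exact hne ((mul_eq_zero.1 h5).resolve_left hΔ')

/-- **Theorem.** For every set `S` of indices which contains the initial segments of its elements, the values `ζ(q)`,
`q ∈ S`, are linearly independent if and only if the values with fixed part in `S` are linearly independent, for relations
of height at most `C ^ v_i`, at ALL tuples in cubes around the points `x v_i`, for all `x` with positive coordinates outside
a small set (`InCubes S`). In particular this holds for the set of the words in the letters `2` and `3`. `InCubes S` holds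
for the set of the `(2, …, 2)` and for `S = {(), (2), (3)}`. The sequences `v_i = (i + 1) ^ a` and `v_i = b ^ i` have exponent
of convergence at most `1 / a` and `0`. -/
theorem result :
    (∀ S : Set (List ℕ), (∀ q ∈ S, IsIndex q) → (∀ q ∈ S, ∀ p, p <+: q → p ∈ S) →
      ((LinearIndependent ℚ fun q : S => mzv q.1) ↔ InCubes S)) ∧
    ((LinearIndependent ℚ fun q : Hoffman => mzv q.1) ↔ InCubes Hoffman) ∧
    InCubes {q | ∀ t ∈ q, t = 2} ∧ InCubes {[], [2], [3]} ∧
    (∀ a : ℝ, 0 < a → ExpLe (fun n : ℕ => ((n : ℝ) + 1) ^ a) (1 / a)) ∧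
    (∀ b : ℝ, 1 < b → ExpLe (fun n : ℕ => b ^ n) 0) := by
  obtain ⟨h1, h2, h3, h4⟩ := HoffmanAlmostAll.result
  refine ⟨fun S hI hS => ⟨fun h => cubes_of_almost ((h1 S hI hS).1 h), indep_of_cubes hI⟩,
    ⟨fun h => cubes_of_almost (h2.1 h), indep_of_cubes fun q hq => ?_⟩, cubes_of_almost h3, cubes_of_almost h4,
    fun κ hκ => Pool.Agent.Y854.GM.expLe_pow κ hκ, fun b hb => Pool.Agent.Y854.GM.expLe_geom b hb⟩
  cases q with
  | nil => trivial
  | cons a l =>
    refine ⟨?_, fun t ht => ?_⟩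
    · rcases hq a List.mem_cons_self with rfl | rfl <;> norm_num
    · rcases hq t (List.mem_cons_of_mem _ ht) with rfl | rfl <;> norm_num

end Pool.Agent.Results.MP_c2d7b4_nt.IndicesInCubes
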